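import Pool.Agent.R269.RCTop

/-!
# MP_63dc35_an, Q1: pseudonorm codes cannot be recoded continuously and isometrically by norm codes

`PN`, `XX`, `PInf`, `BB` are the space `P` of pseudonorms, the coded space `X_μ`, and the sets
`P_∞` and `B` of the problem (definitions of `Pool.Agent.H418R3.GurDefs`).
-/

set_option autoImplicit false

namespace Pool.Agent.Results.MP_63dc35_an.NoContinuousRecoding

open Pool.Agent.H418R3.Gur Pool.Agent.R269.RC

/-- `X_μ ≡ X_ν`: there is a surjective linear isometry `X_μ → X_ν`. -/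
def SameSpace (μ ν : PN) : Prop := Nonempty (XX μ ≃ₗᵢ[ℝ] XX ν)

/-- `Φ : C → B` is continuous and `X_{Φ(μ)} ≡ X_μ` for all `μ ∈ C`. -/
def IsRecoding (C : Set PN) (Φ : C → BB) : Prop :=
  Continuous Φ ∧ ∀ μ : C, SameSpace (Φ μ).1 μ.1

/-- There is no continuous map `Φ : P_∞ → B` with `X_{Φ(μ)}` linearly isometric to `X_μ` for all
`μ`; such a map does not even exist on a suitable compact subset of `P_∞`. -/
theorem result :
    (¬ ∃ Φ : PInf → BB, IsRecoding PInf Φ) ∧
    ∃ C : Set PN, IsCompact C ∧ C ⊆ PInf ∧ ¬ ∃ Φ : C → BB, IsRecoding C Φ := by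
  refine ⟨?_, CC, isCompact_CC, CC_sub, no_recoding⟩
  rintro ⟨Φ, hΦ, hiso⟩
  exact no_recoding ⟨fun μ => Φ ⟨μ.1, CC_sub μ.2⟩,
    hΦ.comp (Continuous.subtype_mk continuous_subtype_val _), fun μ => hiso ⟨μ.1, CC_sub μ.2⟩⟩

end Pool.Agent.Results.MP_63dc35_an.NoContinuousRecoding
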